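import Pool.Agent.N204.HR.Stm
import Pool.Agent.N277.RD.CO

/-!
# HR/CO: compact conjugation, the matrix may permute the arrays
-/

set_option autoImplicit false
set_option linter.unusedSectionVars false

namespace Pool.Agent.N945.HR

open Matrix
open Pool.Agent.N996.BP (kp kp_apply kp_one kp_mul kp_inv_mul)
open Pool.Agent.N204.RD (FixA)
open Pool.Agent.N204.HR (S_CO)
open Pool.Agent.N277.RD (hs hs_nonneg hs_re hs_eq_zero hs_conjTranspose hs_mul_diag hs_diag_mul fix_one fix_mul fix_inv
  fix_sqrt isClosed_fix Psi exists_min agm)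
open scoped ComplexOrder MatrixOrder

theorem co : S_CO := by
  intro ι _ _ 𝒜 H F P Pi lam hF hP hFd hlam
  have hP' : Pi * P = 1 := mul_eq_one_comm.1 hP
  -- the inverse of `F`
  have hll : ∀ i, lam i * star (lam i) = 1 := by
    intro i
    have := Complex.mul_conj' (lam i)
    rw [hlam i] at this
    simpa using this
  set Fi : Matrix ι ι ℂ := P * Matrix.diagonal (star lam) * Pi with hFi
  have hdd : Matrix.diagonal lam * Matrix.diagonal (star lam) = 1 := by
    rw [Matrix.diagonal_mul_diagonal, ← Matrix.diagonal_one]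
    congr 1
    funext i
    exact hll i
  have hFFi : F * Fi = 1 := by
    rw [hFd, hFi]
    calc P * Matrix.diagonal lam * Pi * (P * Matrix.diagonal (star lam) * Pi)
        = P * (Matrix.diagonal lam * (Pi * P) * Matrix.diagonal (star lam)) * Pi := by
          simp only [Matrix.mul_assoc]
      _ = 1 := by rw [hP', Matrix.mul_one, hdd, Matrix.mul_one, hP]
  have hFiF : Fi * F = 1 := mul_eq_one_comm.1 hFFi
  -- the minimum
  set K : Set (Matrix ι ι ℂ × Matrix ι ι ℂ) := {x | FixA 𝒜 x.1 ∧ x.1 * x.2 = 1} with hK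
  have hKc : IsClosed K := by
    refine IsClosed.inter ?_ ?_
    · exact isClosed_fix.preimage continuous_fst
    · exact isClosed_eq (continuous_fst.matrix_mul continuous_snd) continuous_const
  obtain ⟨⟨g, gi⟩, ⟨hg, hggi⟩, hmin⟩ := exists_min P Pi hP K hKc (1, 1)
    ⟨fix_one 𝒜, Matrix.one_mul 1⟩
  simp only at hg hggi
  have hgig : gi * g = 1 := mul_eq_one_comm.1 hggi
  have hgi : FixA 𝒜 gi := fix_inv hg hgig
  refine ⟨g, gi, hg, hgi, hggi, ?_⟩
  set N := g * F * gi with hN
  set Ni := g * Fi * gi with hNi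
  have hNNi : N * Ni = 1 := by
    rw [hN, hNi]
    calc g * F * gi * (g * Fi * gi) = g * (F * (gi * g) * Fi) * gi := by
          simp only [Matrix.mul_assoc]
      _ = 1 := by rw [hgig, Matrix.mul_one, hFFi, Matrix.mul_one, hggi]
  have hNiN : Ni * N = 1 := mul_eq_one_comm.1 hNNi
  -- the positive part
  set h := Nᴴ * N with hh
  have hhp : h.PosSemidef := Matrix.posSemidef_conjTranspose_mul_self N
  have hhfix : FixA 𝒜 h := by
    intro κ _ _ a ha
    obtain ⟨hb, hb2⟩ := hF κ a ha
    have e : h = giᴴ * (Fᴴ * (gᴴ * (g * (F * gi)))) := by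
      rw [hh, hN]
      simp only [Matrix.conjTranspose_mul, Matrix.mul_assoc]
    rw [e, kp_mul, kp_mul, kp_mul, kp_mul, kp_mul]
    simp only [← mulVec_mulVec]
    rw [hgi κ a ha, hg κ _ hb, (H g hg).2 κ _ hb, hb2, (H gi hgi).2 κ a ha]
  set s := CFC.sqrt h with hs'
  have hsp : s.PosSemidef := (CFC.sqrt_nonneg h).posSemidef
  have hss : s * s = h := CFC.sqrt_mul_sqrt_self h hhp.nonneg
  have hsfix : FixA 𝒜 s := fix_sqrt hsp (by rw [hss]; exact hhfix)
  set t := CFC.sqrt s with ht'
  have htp : t.PosSemidef := (CFC.sqrt_nonneg s).posSemidef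
  have htt : t * t = s := CFC.sqrt_mul_sqrt_self s hsp.nonneg
  have htfix : FixA 𝒜 t := fix_sqrt htp (by rw [htt]; exact hsfix)
  obtain ⟨tu, htu⟩ := (H t htfix).1
  set ti : Matrix ι ι ℂ := ((tu⁻¹ : (Matrix ι ι ℂ)ˣ) : Matrix ι ι ℂ) with hti
  have htti : t * ti = 1 := by rw [← htu, hti]; exact tu.mul_inv
  have htit : ti * t = 1 := mul_eq_one_comm.1 htti
  have htH : tᴴ = t := htp.isHermitian.eq
  have hsH : sᴴ = s := hsp.isHermitian.eq
  have htiH : tiᴴ = ti := by
    have h1 : tiᴴ * t = 1 := by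
      have := congrArg Matrix.conjTranspose htti
      rwa [Matrix.conjTranspose_mul, htH, Matrix.conjTranspose_one] at this
    calc tiᴴ = tiᴴ * (t * ti) := by rw [htti, Matrix.mul_one]
      _ = ti := by rw [← Matrix.mul_assoc, h1, Matrix.one_mul]
  set si := ti * ti with hsi
  have hsiH : siᴴ = si := by rw [hsi, Matrix.conjTranspose_mul, htiH]
  have hssi : s * si = 1 := by
    rw [← htt, hsi]
    calc t * t * (ti * ti) = t * (t * ti) * ti := by simp only [Matrix.mul_assoc]
      _ = 1 := by rw [htti, Matrix.mul_one, htti]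
  have hsis : si * s = 1 := mul_eq_one_comm.1 hssi
  set hi := Ni * Niᴴ with hhi
  have hsisi : si * si = hi := by
    have h1 : h * (si * si) = 1 := by
      rw [← hss]
      calc s * s * (si * si) = s * (s * si) * si := by simp only [Matrix.mul_assoc]
        _ = 1 := by rw [hssi, Matrix.mul_one, hssi]
    have h2 : hi * h = 1 := by
      rw [hhi, hh]
      calc Ni * Niᴴ * (Nᴴ * N) = Ni * (Niᴴ * Nᴴ) * N := by simp only [Matrix.mul_assoc]
        _ = 1 := by rw [← Matrix.conjTranspose_mul, hNNi, Matrix.conjTranspose_one,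
                      Matrix.mul_one, hNiN]
    calc si * si = (hi * h) * (si * si) := by rw [h2, Matrix.one_mul]
      _ = hi := by rw [Matrix.mul_assoc, h1, Matrix.mul_one]
  -- the two matrices
  obtain ⟨a, ha⟩ : ∃ a, a = g * P := ⟨_, rfl⟩
  obtain ⟨b, hb⟩ : ∃ b, b = (Pi * gi)ᴴ := ⟨_, rfl⟩
  have hA : (aᴴ * h * a).trace.re = hs a := by
    have h1 : N * a = a * Matrix.diagonal lam := by
      rw [hN, ha]
      calc g * F * gi * (g * P) = g * F * (gi * g) * P := by simp only [Matrix.mul_assoc]
        _ = g * (F * P) := by rw [hgig, Matrix.mul_one, Matrix.mul_assoc]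
        _ = g * P * Matrix.diagonal lam := by
          rw [hFd]
          calc g * (P * Matrix.diagonal lam * Pi * P)
              = g * P * (Matrix.diagonal lam * (Pi * P)) := by simp only [Matrix.mul_assoc]
            _ = _ := by rw [hP', Matrix.mul_one]
    have h2 : aᴴ * h * a = (N * a)ᴴ * (N * a) := by
      rw [hh, Matrix.conjTranspose_mul N a]
      simp only [Matrix.mul_assoc]
    rw [h2, ← hs_re, h1]
    exact hs_mul_diag a lam hlam
  have hB : (bᴴ * hi * b).trace.re = hs b := by
    have h1 : bᴴ * Ni = Matrix.diagonal (star lam) * bᴴ := by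
      rw [hNi, hb, Matrix.conjTranspose_conjTranspose]
      calc Pi * gi * (g * Fi * gi) = Pi * (gi * g) * Fi * gi := by simp only [Matrix.mul_assoc]
        _ = Pi * Fi * gi := by rw [hgig, Matrix.mul_one]
        _ = _ := by
          rw [hFi]
          calc Pi * (P * Matrix.diagonal (star lam) * Pi) * gi
              = (Pi * P) * Matrix.diagonal (star lam) * (Pi * gi) := by
                simp only [Matrix.mul_assoc]
            _ = _ := by rw [hP', Matrix.one_mul]
    have h2 : bᴴ * hi * b = ((bᴴ * Ni)ᴴ)ᴴ * (bᴴ * Ni)ᴴ := by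
      have q : (bᴴ * Ni)ᴴ = Niᴴ * b := by
        rw [Matrix.conjTranspose_mul, Matrix.conjTranspose_conjTranspose]
      rw [Matrix.conjTranspose_conjTranspose (bᴴ * Ni), q, hhi]
      simp only [Matrix.mul_assoc]
    rw [h2, ← hs_re, hs_conjTranspose, h1, hs_diag_mul _ _ (fun i => by simp [hlam i]),
      hs_conjTranspose]
  -- the midpoint
  have hmid : Psi P Pi (t * g, gi * ti) = (aᴴ * s * a).trace.re + (bᴴ * si * b).trace.re := by
    unfold Psi
    congr 1
    · rw [hs_re]
      congr 2
      rw [ha, ← htt]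
      simp only [Matrix.conjTranspose_mul, htH, Matrix.mul_assoc]
    · rw [← hs_conjTranspose, hs_re, Matrix.conjTranspose_conjTranspose]
      congr 2
      rw [hb, hsi]
      simp only [Matrix.conjTranspose_mul, Matrix.conjTranspose_conjTranspose, htiH,
        Matrix.mul_assoc]
  have hle := hmin (t * g, gi * ti) ⟨fix_mul htfix hg, by
    show t * g * (gi * ti) = 1
    calc t * g * (gi * ti) = t * (g * gi) * ti := by simp only [Matrix.mul_assoc]
      _ = 1 := by rw [hggi, Matrix.mul_one, htti]⟩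
  rw [hmid] at hle
  have hle2 : hs a + hs b ≤ (aᴴ * s * a).trace.re + (bᴴ * si * b).trace.re := by
    have h1 : Psi P Pi (g, gi) = hs a + hs b := by
      unfold Psi
      rw [hb, hs_conjTranspose, ha]
    rw [← h1]
    exact hle
  have k1 := agm s h a hsH hss
  have k2 := agm si hi b hsiH hsisi
  rw [hA] at k1
  rw [hB] at k2
  have n2 := hs_nonneg ((1 - si) * b)
  have h0 : (1 - s) * a = 0 := hs_eq_zero (by linarith)
  have hs1 : s = 1 := by
    have h1 : (1 - s) * (a * (Pi * gi)) = 0 := by
      rw [← Matrix.mul_assoc, h0, Matrix.zero_mul]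
    have h2 : a * (Pi * gi) = 1 := by
      rw [ha]
      calc g * P * (Pi * gi) = g * (P * Pi) * gi := by simp only [Matrix.mul_assoc]
        _ = 1 := by rw [hP, Matrix.mul_one, hggi]
    rw [h2, Matrix.mul_one] at h1
    exact (sub_eq_zero.1 h1).symm
  rw [← hss, hs1, Matrix.one_mul]

end Pool.Agent.N945.HR
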